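import Pool.Agent.Q78.WI.Stm

/-!
# Project WI of helper78 (infinite-dimensional Wishart processes), job C9
-/

set_option autoImplicit false

open MeasureTheory ProbabilityTheory Filter Topology Set
open scoped NNReal InnerProductSpace Matrix

namespace Pool.Agent.Q198.WI

open Pool.Agent.Q78.WI

universe u v

lemma gen_sum {H : Type u} [NormedAddCommGroup H] [InnerProductSpace ℝ H] {T : ℝ → H →L[ℝ] H}
    {d : ℕ} (c : Fin d → ℝ) (x z : Fin d → H) (h : ∀ i, Gen T (x i) (z i)) :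
    Gen T (∑ i, c i • x i) (∑ i, c i • z i) := by
  unfold Gen
  have h1 : (fun t : ℝ => t⁻¹ • (T t (∑ i, c i • x i) - ∑ i, c i • x i)) =
      fun t : ℝ => ∑ i, c i • (t⁻¹ • (T t (x i) - x i)) := by
    funext t
    rw [map_sum, ← Finset.sum_sub_distrib, Finset.smul_sum]
    refine Finset.sum_congr rfl fun i _ => ?_
    rw [map_smul, ← smul_sub, smul_comm]
  rw [h1]
  exact tendsto_finsetSum _ fun i _ => (h i).const_smul (c i)

theorem c9 (hB : S_B.{u}) (hC1 : S_C1.{u}) (hC2 : S_C2.{u}) : S_C9.{u, v} := by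
  intro H _ _ _ T hT Q hQ α d g y hg u hu Ω mΩ P _ ℱ X τ hmart s hs
  have hψ : (psi T Q g u s).PosSemidef := ((hC2 H T hT Q hQ α d g u hu).1 s hs).2
  obtain ⟨B, hBB⟩ := hB H d (psi T Q g u s) hψ
  have h1s : 0 ≤ 1 - s := by linarith [hs.2]
  have hgen : ∀ k, Gen T (∑ i, B k i • T (1 - s) (g i)) (∑ i, B k i • T (1 - s) (y i)) := by
    intro k
    exact gen_sum (fun i => B k i) _ _ fun i => (hC1 H T hT (g i) (y i) (hg i)).1 (1 - s) h1s
  have hM := (hmart d (fun k => ∑ i, B k i • T (1 - s) (g i))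
    (fun k => ∑ i, B k i • T (1 - s) (y i)) hgen).smul (fac α T Q g u s)
  have e : (fun (t : ℝ≥0) ω => av α T Q g u (X (min t (τ ω)) ω) s
        - ∫ r in (0 : ℝ)..((min t (τ ω) : ℝ≥0) : ℝ), cv α T Q g y u (X r.toNNReal ω) s) =
      fac α T Q g u s • fun (t : ℝ≥0) ω =>
        Real.exp (-quad (X (min t (τ ω)) ω) (fun k => ∑ i, B k i • T (1 - s) (g i)))
          - ∫ s_1 in (0 : ℝ)..((min t (τ ω) : ℝ≥0) : ℝ), drift α Q (X s_1.toNNReal ω)
            (fun k => ∑ i, B k i • T (1 - s) (g i)) (fun k => ∑ i, B k i • T (1 - s) (y i)) := by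
    funext t ω
    simp only [Pi.smul_apply, smul_eq_mul]
    rw [mul_sub, ← intervalIntegral.integral_const_mul]
    have e1 : ∀ S : H →L[ℝ] H, av α T Q g u S s =
        fac α T Q g u s * Real.exp (-quad S (fun k => ∑ i, B k i • T (1 - s) (g i))) := by
      intro S
      unfold av
      rw [(hBB α Q S (fun i => T (1 - s) (g i)) (fun i => T (1 - s) (y i))).1]
    have e2 : ∀ S : H →L[ℝ] H, cv α T Q g y u S s =
        fac α T Q g u s * drift α Q S (fun k => ∑ i, B k i • T (1 - s) (g i))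
          (fun k => ∑ i, B k i • T (1 - s) (y i)) := by
      intro S
      unfold cv
      rw [(hBB α Q S (fun i => T (1 - s) (g i)) (fun i => T (1 - s) (y i))).2]
    rw [e1]
    simp_rw [e2]
  rw [e]
  exact hM

end Pool.Agent.Q198.WI
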